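import Mathlib
import Pool.Agent.Q6.ClassTr.Fin

/-!
# MP_8fd2f5_al, Q1: proved

For every `k > 3` the group generated by the horizontal class transpositions with moduli
`2, ..., k` is isomorphic to the symmetric group of degree `lcm (2, ..., k)`.
-/

namespace Pool.Agent.Results.MP_8fd2f5_al.SymmetricForAllK

open Equiv Q6.ClassTr

/-- `σ` is the horizontal class transposition `τ_{r(m),s(m)}`: it interchanges `r + j m` and
`s + j m` for every integer `j` and fixes all integers not congruent to `r` or `s` modulo `m`. -/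
def IsTransp (m r s : ℕ) (σ : Perm ℤ) : Prop :=
  (∀ j : ℤ, σ (r + j * m) = s + j * m ∧ σ (s + j * m) = r + j * m) ∧
    ∀ x : ℤ, ¬ x ≡ r [ZMOD m] → ¬ x ≡ s [ZMOD m] → σ x = x

/-- The group `CT_m` generated by all `τ_{r(m),s(m)}` with `0 ≤ r < s ≤ m - 1`. -/
def CT (m : ℕ) : Subgroup (Perm ℤ) :=
  Subgroup.closure {σ | ∃ r s : ℕ, r < s ∧ s < m ∧ IsTransp m r s σ}

/-- The group `CT_(k)` generated by `CT_2, CT_3, ..., CT_k`. -/
def CTUpTo (k : ℕ) : Subgroup (Perm ℤ) := ⨆ m ∈ Finset.Icc 2 k, CT m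

/-- `N(k) = lcm(2, ..., k)`. -/
def N (k : ℕ) : ℕ := (Finset.Icc 2 k).lcm id

/-- The symmetric group of degree `m` acting on the residues modulo `m`, as functions on `ℤ`. -/
def Efun {m : ℕ} (hm : 0 < m) (σ : Perm (Fin m)) (x : ℤ) : ℤ :=
  m * (x / m) + σ ⟨(x % m).toNat, by
    have h1 := Int.emod_nonneg x (by exact_mod_cast hm.ne' : (m : ℤ) ≠ 0)
    have h2 := Int.emod_lt_of_pos x (by exact_mod_cast hm : (0 : ℤ) < m)
    omega⟩

theorem Efun_apply {m : ℕ} (hm : 0 < m) (σ : Perm (Fin m)) (q : ℤ) (c : Fin m) :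
    Efun hm σ (m * q + c) = m * q + σ c := by
  have hc := c.2
  have hc' : ((c : ℕ) : ℤ) < m := by exact_mod_cast hc
  have h1 : ((m : ℤ) * q + c) / m = q := by
    rw [Int.add_comm, Int.add_mul_ediv_left _ _ (by exact_mod_cast hm.ne'),
      Int.ediv_eq_zero_of_lt (by positivity) hc', zero_add]
  have h2 : ((m : ℤ) * q + c) % m = c := by
    rw [Int.add_comm, Int.add_mul_emod_self_left, Int.emod_eq_of_lt (by positivity) hc']
  unfold Efun
  rw [h1]
  congr 3
  apply congrArg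
  apply Fin.ext
  show (((m : ℤ) * q + c) % m).toNat = c
  rw [h2]
  exact Int.toNat_natCast _

theorem exists_repr {m : ℕ} (hm : 0 < m) (x : ℤ) : ∃ (q : ℤ) (c : Fin m), x = m * q + c := by
  have h1 := Int.emod_nonneg x (by exact_mod_cast hm.ne' : (m : ℤ) ≠ 0)
  have h2 := Int.emod_lt_of_pos x (by exact_mod_cast hm : (0 : ℤ) < m)
  refine ⟨x / m, ⟨(x % m).toNat, by omega⟩, ?_⟩
  show x = m * (x / m) + ((x % m).toNat : ℤ)
  rw [Int.toNat_of_nonneg h1]
  exact (Int.mul_ediv_add_emod x m).symm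

/-- The homomorphism from the symmetric group of degree `m` to the permutations of `ℤ`. -/
def E {m : ℕ} (hm : 0 < m) : Perm (Fin m) →* Perm ℤ where
  toFun σ :=
    { toFun := Efun hm σ
      invFun := Efun hm σ.symm
      left_inv := by
        intro x
        obtain ⟨q, c, rfl⟩ := exists_repr hm x
        rw [Efun_apply, Efun_apply, σ.symm_apply_apply]
      right_inv := by
        intro x
        obtain ⟨q, c, rfl⟩ := exists_repr hm x
        rw [Efun_apply, Efun_apply, σ.apply_symm_apply] }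
  map_one' := by
    apply Equiv.ext
    intro x
    obtain ⟨q, c, rfl⟩ := exists_repr hm x
    exact Efun_apply hm 1 q c
  map_mul' σ τ := by
    apply Equiv.ext
    intro x
    obtain ⟨q, c, rfl⟩ := exists_repr hm x
    show Efun hm (σ * τ) (m * q + c) = Efun hm σ (Efun hm τ (m * q + c))
    rw [Efun_apply, Efun_apply, Efun_apply, Perm.mul_apply]

theorem E_apply {m : ℕ} (hm : 0 < m) (σ : Perm (Fin m)) (q : ℤ) (c : Fin m) :
    E hm σ (m * q + c) = m * q + σ c := Efun_apply hm σ q c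

theorem E_injective {m : ℕ} (hm : 0 < m) : Function.Injective (E hm) := by
  intro σ τ h
  apply Equiv.ext
  intro c
  have h1 := congrArg (fun f : Perm ℤ => f (m * 0 + c)) h
  simp only [E_apply] at h1
  apply Fin.ext
  have h2 : ((σ c : ℕ) : ℤ) = (τ c : ℕ) := by linarith
  exact_mod_cast h2

theorem E_swap {m : ℕ} (hm : 0 < m) {r s : ℕ} (hr : r < m) (hs : s < m) :
    IsTransp m r s (E hm (swap ⟨r, hr⟩ ⟨s, hs⟩)) := by
  refine ⟨fun j => ⟨?_, ?_⟩, ?_⟩
  · have h := E_apply hm (swap ⟨r, hr⟩ ⟨s, hs⟩) j ⟨r, hr⟩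
    rw [swap_apply_left] at h
    have e1 : (r : ℤ) + j * m = m * j + ((⟨r, hr⟩ : Fin m) : ℕ) := by
      show (r : ℤ) + j * m = m * j + r
      ring
    rw [e1, h]
    show (m : ℤ) * j + s = s + j * m
    ring
  · have h := E_apply hm (swap ⟨r, hr⟩ ⟨s, hs⟩) j ⟨s, hs⟩
    rw [swap_apply_right] at h
    have e1 : (s : ℤ) + j * m = m * j + ((⟨s, hs⟩ : Fin m) : ℕ) := by
      show (s : ℤ) + j * m = m * j + s
      ring
    rw [e1, h]
    show (m : ℤ) * j + r = r + j * m
    ring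
  · intro x hxr hxs
    obtain ⟨q, c, rfl⟩ := exists_repr hm x
    rw [E_apply, swap_apply_of_ne_of_ne]
    · rintro rfl
      apply hxr
      show (m * q + (r : ℤ)) % m = r % m
      rw [Int.add_comm, Int.add_mul_emod_self_left]
    · rintro rfl
      apply hxs
      show (m * q + (s : ℤ)) % m = s % m
      rw [Int.add_comm, Int.add_mul_emod_self_left]

theorem transp_unique {m : ℕ} (hm : 0 < m) {r s : ℕ} (hr : r < m) (hs : s < m) {σ : Perm ℤ}
    (h : IsTransp m r s σ) : σ = E hm (swap ⟨r, hr⟩ ⟨s, hs⟩) := by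
  have h' := E_swap hm hr hs
  apply Equiv.ext
  intro x
  by_cases h1 : x ≡ r [ZMOD m]
  · obtain ⟨j, hj⟩ := (Int.modEq_iff_dvd.1 h1.symm)
    have : x = r + j * m := by linarith [mul_comm (m : ℤ) j]
    rw [this, (h.1 j).1, (h'.1 j).1]
  · by_cases h2 : x ≡ s [ZMOD m]
    · obtain ⟨j, hj⟩ := (Int.modEq_iff_dvd.1 h2.symm)
      have : x = s + j * m := by linarith [mul_comm (m : ℤ) j]
      rw [this, (h.1 j).2, (h'.1 j).2]
    · rw [h.2 x h1 h2, h'.2 x h1 h2]

/-- `CT_m` is the image of the symmetric group of degree `m`. -/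
theorem CT_eq {m : ℕ} (hm : 0 < m) : CT m = (E hm).range := by
  apply le_antisymm
  · unfold CT
    rw [Subgroup.closure_le]
    rintro σ ⟨r, s, hrs, hsm, h⟩
    exact ⟨_, (transp_unique hm (hrs.trans hsm) hsm h).symm⟩
  · rw [MonoidHom.range_eq_map, ← Perm.closure_isSwap, MonoidHom.map_closure,
      Subgroup.closure_le]
    rintro _ ⟨_, ⟨a, b, hab, rfl⟩, rfl⟩
    rcases lt_or_gt_of_ne (fun h => hab (Fin.ext h) : (a : ℕ) ≠ b) with h | h
    · exact Subgroup.subset_closure ⟨a, b, h, b.2, E_swap hm a.2 b.2⟩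
    · rw [swap_comm]
      exact Subgroup.subset_closure ⟨b, a, h, a.2, E_swap hm b.2 a.2⟩

/-- Compatibility with the blow-up. -/
theorem E_bl {m L : ℕ} (hm : 0 < m) (hL : 0 < L) (h : m ∣ L) (σ : Perm (Fin m)) :
    E hL (bl hm h σ) = E hm σ := by
  apply Equiv.ext
  intro x
  obtain ⟨q, c, rfl⟩ := exists_repr hL x
  rw [E_apply, bl_val]
  obtain ⟨w, hw⟩ := h
  have h1 : ((L : ℤ) * q + c) = m * (w * q + ((c : ℕ) / m : ℕ)) +
      ((⟨(c : ℕ) % m, Nat.mod_lt _ hm⟩ : Fin m) : ℕ) := by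
    have h2 : ((c : ℕ) : ℤ) = m * ((c : ℕ) / m : ℕ) + ((c : ℕ) % m : ℕ) := by
      exact_mod_cast (Nat.div_add_mod (c : ℕ) m).symm
    show ((L : ℤ) * q + c) = m * (w * q + ((c : ℕ) / m : ℕ)) + ((c : ℕ) % m : ℕ)
    have h3 : (L : ℤ) = m * w := by exact_mod_cast hw
    rw [h3]
    linarith
  rw [h1, E_apply]
  have h3 : (L : ℤ) = m * w := by exact_mod_cast hw
  rw [h3]
  push_cast
  ring

theorem CT_le_range {m L : ℕ} (hm : 0 < m) (hL : 0 < L) (h : m ∣ L) : CT m ≤ (E hL).range := by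
  rw [CT_eq hm]
  rintro _ ⟨σ, rfl⟩
  exact ⟨_, E_bl hm hL h σ⟩

theorem dvd_N {m k : ℕ} (h2 : 2 ≤ m) (hk : m ≤ k) : m ∣ N k :=
  Finset.dvd_lcm (f := id) (Finset.mem_Icc.2 ⟨h2, hk⟩)

theorem N_pos (k : ℕ) : 0 < N k := by
  rw [Nat.pos_iff_ne_zero]
  unfold N
  rw [Ne, Finset.lcm_eq_zero_iff]
  rintro ⟨x, hx, h0⟩
  rw [Finset.mem_Icc] at hx
  have : x = 0 := h0
  omega

theorem N_succ {k : ℕ} (hk : 1 ≤ k) : N (k + 1) = Nat.lcm (N k) (k + 1) := by
  have h1 : Finset.Icc 2 (k + 1) = insert (k + 1) (Finset.Icc 2 k) := by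
    ext x
    simp only [Finset.mem_Icc, Finset.mem_insert]
    omega
  unfold N
  rw [h1, Finset.lcm_insert, Nat.lcm_comm]
  rfl

theorem N_large {k : ℕ} (hk : 4 ≤ k) : k + 3 ≤ N k := by
  have h1 := dvd_N (by omega : 2 ≤ k) le_rfl
  have h2 := dvd_N (by omega : 2 ≤ k - 1) (by omega : k - 1 ≤ k)
  have hc : Nat.Coprime k (k - 1) := by
    have h3 : k = (k - 1) + 1 := by omega
    have h4 : Nat.Coprime ((k - 1) + 1) (k - 1) := by simp
    rwa [← h3] at h4
  have h3 := Nat.le_of_dvd (N_pos k) (hc.mul_dvd_of_dvd_of_dvd h1 h2)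
  have h4 : 3 * k ≤ k * (k - 1) := by
    rw [mul_comm 3 k]
    exact Nat.mul_le_mul_left k (by omega)
  omega

theorem CT_le_upTo {m k : ℕ} (h2 : 2 ≤ m) (hk : m ≤ k) : CT m ≤ CTUpTo k :=
  le_iSup₂_of_le m (Finset.mem_Icc.2 ⟨h2, hk⟩) le_rfl

theorem upTo_le_range (k : ℕ) : CTUpTo k ≤ (E (N_pos k)).range := by
  unfold CTUpTo
  refine iSup₂_le fun m hm => ?_
  rw [Finset.mem_Icc] at hm
  exact CT_le_range (by omega) _ (dvd_N hm.1 hm.2)

theorem has_of_le {m L : ℕ} (hm : 0 < m) (hL : 0 < L) (h : m ∣ L) {H : Subgroup (Perm ℤ)}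
    (hH : (E hm).range ≤ H) : Has (H.comap (E hL)) m := by
  refine ⟨hm, h, fun σ => ?_⟩
  rw [Subgroup.mem_comap, E_bl]
  exact hH ⟨σ, rfl⟩

theorem upTo_eq {k : ℕ} (hk : 4 ≤ k) : CTUpTo k = (E (N_pos k)).range := by
  induction k, hk using Nat.le_induction with
  | base =>
    apply le_antisymm (upTo_le_range 4)
    have hN : N 4 = 12 := by decide
    have key : ∀ L (hL : 0 < L), L = 12 → (E hL).range ≤ CTUpTo 4 := by
      rintro L hL rfl
      have H4 : Has ((CTUpTo 4).comap (E hL)) 4 := by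
        apply has_of_le (by omega) hL ⟨3, rfl⟩
        rw [← CT_eq]
        exact CT_le_upTo (by omega) (by omega)
      have H3 : Has ((CTUpTo 4).comap (E hL)) 3 := by
        apply has_of_le (by omega) hL ⟨4, rfl⟩
        rw [← CT_eq]
        exact CT_le_upTo (by omega) (by omega)
      have htop := eq_top H4 H3 (by omega) (by omega) (by decide) (base_three H4 H3)
      rintro _ ⟨σ, rfl⟩
      have : σ ∈ (CTUpTo 4).comap (E hL) := by rw [htop]; exact Subgroup.mem_top _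
      exact this
    exact key _ _ hN
  | succ k hk ih =>
    apply le_antisymm (upTo_le_range (k + 1))
    have hN := N_succ (by omega : 1 ≤ k)
    have hle : CTUpTo k ≤ CTUpTo (k + 1) := by
      unfold CTUpTo
      refine iSup₂_le fun m hm => ?_
      rw [Finset.mem_Icc] at hm
      exact CT_le_upTo hm.1 (by omega)
    have HM : Has ((CTUpTo (k + 1)).comap (E (N_pos (k + 1)))) (N k) := by
      apply has_of_le (N_pos k) (N_pos (k + 1)) (by rw [hN]; exact Nat.dvd_lcm_left _ _)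
      rw [← ih]
      exact hle
    have Hk : Has ((CTUpTo (k + 1)).comap (E (N_pos (k + 1)))) (k + 1) := by
      apply has_of_le (by omega) (N_pos (k + 1)) (by rw [hN]; exact Nat.dvd_lcm_right _ _)
      rw [← CT_eq]
      exact CT_le_upTo (by omega) le_rfl
    have hlarge := N_large hk
    have htop := eq_top HM Hk (by omega) (by omega) hN
      (exists_three HM Hk (by omega) (by omega) hN)
    rintro _ ⟨σ, rfl⟩
    have : σ ∈ (CTUpTo (k + 1)).comap (E (N_pos (k + 1))) := by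
      rw [htop]
      exact Subgroup.mem_top _
    exact this

/-- For every `k > 3` the group `CT_(k)` is isomorphic to the symmetric group of degree
`lcm(2, ..., k)`. -/
theorem result : ∀ k : ℕ, 3 < k → Nonempty (CTUpTo k ≃* Perm (Fin (N k))) := by
  intro k hk
  have h := upTo_eq (by omega : 4 ≤ k)
  refine ⟨(MulEquiv.subgroupCongr h).trans (MonoidHom.ofInjective (E_injective (N_pos k))).symm⟩

end Pool.Agent.Results.MP_8fd2f5_al.SymmetricForAllK
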